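import Mathlib
import Pool.Agent.CpTwo.Square

set_option autoImplicit false

namespace Pool.Agent.Results.MP_d76130_gt.SquareNotNormal

/-- There is a zero-dimensional (Tychonoff) space `X` such that `C_p(X, {0,1})` is normal (even
Lindelof) while `C_p(X, {0,1}) × C_p(X, {0,1})` is not normal. -/
theorem result : ∃ (X : Type) (_ : TopologicalSpace X), T35Space X ∧
    TopologicalSpace.IsTopologicalBasis {s : Set X | IsClopen s} ∧
    NormalSpace {f : X → Bool // Continuous f} ∧
    LindelofSpace {f : X → Bool // Continuous f} ∧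
    ¬ NormalSpace ({f : X → Bool // Continuous f} × {f : X → Bool // Continuous f}) := by
  have hl : LindelofSpace {f : CpTwo.XX → Bool // Continuous f} :=
    inferInstanceAs (LindelofSpace CpTwo.Cp)
  refine ⟨CpTwo.XX, inferInstance, ?_, CpTwo.basis_clopen, ?_, hl, CpTwo.not_normal⟩
  · exact (Topology.IsEmbedding.mk ⟨rfl⟩ CpTwo.ev_injective).t35Space
  · infer_instance

end Pool.Agent.Results.MP_d76130_gt.SquareNotNormal
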